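import Pool.Agent.Lib.H96TF.X
import Pool.Agent.Lib.H85TF.P1

/-!
# LD, file Def: separations, reductions and the predicate `U` (MP_33911d, form D)

Graphs are pairs `E : Finset (Sym2 V)`, `Y : Finset V` (vertex set).
-/

set_option autoImplicit false

namespace LD

open Finset H98M

variable {V : Type*} [DecidableEq V]

/-- `(P, Q)` is a separation of the graph with vertex set `Y` and edge set `E` at `{x, y}`. -/
structure Sep (E : Finset (Sym2 V)) (Y : Finset V) (x y : V) (P Q : Finset V) : Prop where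
  ne : x ≠ y
  xP : x ∉ P
  xQ : x ∉ Q
  yP : y ∉ P
  yQ : y ∉ Q
  P0 : P.Nonempty
  Q0 : Q.Nonempty
  dis : Disjoint P Q
  eq : insert x (insert y (P ∪ Q)) = Y
  noE : ∀ a ∈ P, ∀ b ∈ Q, s(a, b) ∉ E

/-- A 2-connected graph. -/
structure TCY (E : Finset (Sym2 V)) (Y : Finset V) : Prop where
  three : 3 ≤ Y.card
  sub : ∀ e ∈ E, ∀ v ∈ e, v ∈ Y
  loop : ∀ e ∈ E, ¬ e.IsDiag
  conn : ¬ Disc Y E
  conn' : ∀ z ∈ Y, ¬ Disc (Y.erase z) E

/-- `W` is separated by two vertices which are not in `W`. -/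
def X2 (E : Finset (Sym2 V)) (Y W : Finset V) : Prop :=
  ∃ x y P Q, Sep E Y x y P Q ∧ x ∉ W ∧ y ∉ W ∧ (∃ a ∈ W, a ∈ P) ∧ ∃ b ∈ W, b ∈ Q

/-- The graph in which the side `Q` of a separation at `{x, y}` is replaced by the edge `xy`
(vertex set `Y \ Q`). -/
def red (E : Finset (Sym2 V)) (Y : Finset V) (x y : V) (Q : Finset V) : Finset (Sym2 V) :=
  insert s(x, y) (E ∩ (Y \ Q).sym2)

/-- Some iterated reduction of the graph `(E, Y)` does not cover `W`. -/
inductive U : Finset (Sym2 V) → Finset V → Finset V → Prop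
  | base {E : Finset (Sym2 V)} {Y W : Finset V} : ¬ H85TF.Cov E (W ∩ Y) → U E Y W
  | step {E : Finset (Sym2 V)} {Y W : Finset V} {x y : V} {P Q : Finset V} :
      Sep E Y x y P Q → U (red E Y x y Q) (Y \ Q) W → U E Y W

/-- `x` and `y` are not separated by any separation. -/
def Unc (E : Finset (Sym2 V)) (Y : Finset V) (x y : V) : Prop :=
  ∀ u v P Q, Sep E Y u v P Q → ¬ (x ∈ P ∧ y ∈ Q)

theorem Sep.symm {E : Finset (Sym2 V)} {Y : Finset V} {x y : V} {P Q : Finset V}
    (h : Sep E Y x y P Q) : Sep E Y x y Q P where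
  ne := h.ne
  xP := h.xQ
  xQ := h.xP
  yP := h.yQ
  yQ := h.yP
  P0 := h.Q0
  Q0 := h.P0
  dis := h.dis.symm
  eq := by rw [union_comm]; exact h.eq
  noE := fun a ha b hb => by rw [Sym2.eq_swap]; exact h.noE b hb a ha

theorem Sep.flip {E : Finset (Sym2 V)} {Y : Finset V} {x y : V} {P Q : Finset V}
    (h : Sep E Y x y P Q) : Sep E Y y x P Q where
  ne := h.ne.symm
  xP := h.yP
  xQ := h.yQ
  yP := h.xP
  yQ := h.xQ
  P0 := h.P0
  Q0 := h.Q0
  dis := h.dis
  eq := by rw [Finset.insert_comm]; exact h.eq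
  noE := h.noE

theorem U.up {E : Finset (Sym2 V)} {Y W W' : Finset V} (h : U E Y W) (hW : W ⊆ W') :
    U E Y W' := by
  induction h with
  | base h =>
    refine U.base fun h1 => h ?_
    obtain ⟨F, hF, hd, hA⟩ := h1
    exact ⟨F, hF, hd, fun v hv => hA v (inter_subset_inter_right hW hv)⟩
  | step hs _ ih => exact U.step hs (ih hW)

theorem red_mono {E E' : Finset (Sym2 V)} {Y : Finset V} {x y : V} {Q : Finset V} (h : E ⊆ E') :
    red E Y x y Q ⊆ red E' Y x y Q :=
  insert_subset_insert _ (inter_subset_inter_right h)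

theorem Sep.anti {E E' : Finset (Sym2 V)} {Y : Finset V} {x y : V} {P Q : Finset V} (h : E ⊆ E')
    (hs : Sep E' Y x y P Q) : Sep E Y x y P Q :=
  { hs with noE := fun a ha b hb hab => hs.noE a ha b hb (h hab) }

theorem U.anti {E' : Finset (Sym2 V)} {Y W : Finset V} (h : U E' Y W) :
    ∀ {E : Finset (Sym2 V)}, E ⊆ E' → U E Y W := by
  induction h with
  | base h =>
    intro E hE
    refine U.base fun h1 => h ?_
    obtain ⟨F, hF, hd, hA⟩ := h1
    exact ⟨F, hF.trans hE, hd, hA⟩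
  | step hs _ ih => exact fun hE => U.step (hs.anti hE) (ih (red_mono hE))

theorem X2.anti {E E' : Finset (Sym2 V)} {Y W : Finset V} (hE : E ⊆ E') (h : X2 E' Y W) :
    X2 E Y W := by
  obtain ⟨x, y, P, Q, hs, h1, h2, h3, h4⟩ := h
  exact ⟨x, y, P, Q, hs.anti hE, h1, h2, h3, h4⟩

theorem u_noSep {E : Finset (Sym2 V)} {Y W : Finset V} (h : ∀ x y P Q, ¬ Sep E Y x y P Q)
    (hU : U E Y W) : ¬ H85TF.Cov E (W ∩ Y) := by
  cases hU with
  | base h1 => exact h1
  | step hs _ => exact absurd hs (h _ _ _ _)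

end LD
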